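import Pool.Agent.OB31.Core

/-!
# OB31/Back (MP_93e89b_co): an obstruction as a minor gives a convexity without the Radon property

`exists_partition`: the branch sets of a minor of a connected graph may be enlarged to a partition. The convex sets are the unions of the
branch sets `B x` with `𝒜 ⊆ F x`. `main`: the equivalence.
-/

set_option autoImplicit false

namespace Pool.Agent.OB31

open Pool.Agent.HR54

variable {V U : Type} {G : SimpleGraph V} {p : ℕ}

theorem exists_partition [Finite V] {K : SimpleGraph U} [Nonempty U] (hG : G.Connected)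
    (hm : IsMinor K G) : ∃ B : U → Set V, (∀ x, (G.induce (B x)).Connected) ∧
      (∀ x y, x ≠ y → Disjoint (B x) (B y)) ∧ (∀ x y, K.Adj x y → Touch G (B x) (B y)) ∧
      (⋃ x, B x) = Set.univ := by
  classical
  -- a minor model with the largest union
  obtain ⟨B, ⟨hB, hd, ht⟩, hmax⟩ : ∃ B : U → Set V, ((∀ x, (G.induce (B x)).Connected) ∧
      (∀ x y, x ≠ y → Disjoint (B x) (B y)) ∧ ∀ x y, K.Adj x y → Touch G (B x) (B y)) ∧
      ∀ B' : U → Set V, ((∀ x, (G.induce (B' x)).Connected) ∧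
      (∀ x y, x ≠ y → Disjoint (B' x) (B' y)) ∧ ∀ x y, K.Adj x y → Touch G (B' x) (B' y)) →
      (⋃ x, B' x).ncard ≤ (⋃ x, B x).ncard := by
    obtain ⟨B₀, h₀⟩ := hm
    obtain ⟨n, hn⟩ : ∃ n, n = Nat.card V - (⋃ x, B₀ x).ncard := ⟨_, rfl⟩
    induction n using Nat.strong_induction_on generalizing B₀ with
    | _ n ih =>
      by_cases hc : ∃ B' : U → Set V, ((∀ x, (G.induce (B' x)).Connected) ∧
          (∀ x y, x ≠ y → Disjoint (B' x) (B' y)) ∧ ∀ x y, K.Adj x y → Touch G (B' x) (B' y)) ∧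
          (⋃ x, B₀ x).ncard < (⋃ x, B' x).ncard
      · obtain ⟨B', h', hlt⟩ := hc
        have hle : (⋃ x, B' x).ncard ≤ Nat.card V := Set.ncard_le_card _
        exact ih (Nat.card V - (⋃ x, B' x).ncard) (by omega) B' h' rfl
      · push Not at hc
        exact ⟨B₀, h₀, fun B' h' => hc B' h'⟩
  refine ⟨B, hB, hd, ht, ?_⟩
  by_contra hne
  obtain ⟨v, hv⟩ := (Set.ne_univ_iff_exists_notMem _).1 hne
  obtain ⟨x₀⟩ := ‹Nonempty U›
  obtain ⟨⟨u₀, hu₀⟩⟩ := (hB x₀).nonempty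
  -- an edge leaving the union
  obtain ⟨u, w, huw, hu, hw⟩ : ∃ u w, G.Adj u w ∧ u ∈ ⋃ x, B x ∧ w ∉ ⋃ x, B x := by
    have h1 : ∀ a b, G.Reachable a b → a ∈ ⋃ x, B x → b ∉ ⋃ x, B x →
        ∃ u w, G.Adj u w ∧ u ∈ ⋃ x, B x ∧ w ∉ ⋃ x, B x := by
      rintro a b ⟨q⟩
      induction q with
      | nil => exact fun h2 h3 => absurd h2 h3
      | @cons a b c hab _ ih =>
        intro h2 h3
        by_cases hb : b ∈ ⋃ x, B x
        · exact ih hb h3
        · exact ⟨a, b, hab, h2, hb⟩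
    exact h1 u₀ v (hG.preconnected u₀ v) (Set.mem_iUnion.2 ⟨x₀, hu₀⟩) hv
  obtain ⟨x, hx⟩ := Set.mem_iUnion.1 hu
  have hwB : ∀ y, w ∉ B y := fun y hy => hw (Set.mem_iUnion.2 ⟨y, hy⟩)
  have hwc : (G.induce ({w} : Set V)).Preconnected := by
    rintro ⟨a, ha⟩ ⟨b, hb⟩
    rw [Set.mem_singleton_iff] at ha hb
    subst ha
    subst hb
    exact SimpleGraph.Reachable.refl _
  have h2 := hmax (fun y => if y = x then B y ∪ {w} else B y) ⟨fun y => ?_, fun y y' hyy => ?_,
    fun y y' hyy => ?_⟩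
  · have h3 : (⋃ y, B y).ncard < (⋃ y, if y = x then B y ∪ {w} else B y).ncard := by
      apply Set.ncard_lt_ncard
      · refine ⟨?_, fun hs => ?_⟩
        · intro q hq
          obtain ⟨y, hy⟩ := Set.mem_iUnion.1 hq
          refine Set.mem_iUnion.2 ⟨y, ?_⟩
          split_ifs
          · exact Or.inl hy
          · exact hy
        · refine hw (hs (Set.mem_iUnion.2 ⟨x, ?_⟩))
          rw [if_pos rfl]
          exact Or.inr rfl
      · exact Set.toFinite _
    omega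
  · by_cases hy : y = x
    · have e1 : (if y = x then B y ∪ {w} else B y) = B x ∪ {w} := by rw [if_pos hy, hy]
      rw [e1]
      exact SimpleGraph.connected_induce_union (hB x).preconnected hwc hx rfl huw
    · have e1 : (if y = x then B y ∪ {w} else B y) = B y := if_neg hy
      rw [e1]
      exact hB y
  · split_ifs with hy hy' hy'
    · exact absurd (hy.trans hy'.symm) hyy
    · rw [Set.disjoint_union_left]
      exact ⟨hd _ _ hyy, Set.disjoint_singleton_left.2 (hwB y')⟩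
    · rw [Set.disjoint_union_right]
      exact ⟨hd _ _ hyy, Set.disjoint_singleton_right.2 (hwB y)⟩
    · exact hd _ _ hyy
  · have hmono : ∀ y, B y ⊆ if y = x then B y ∪ {w} else B y := by
      intro y
      split_ifs
      · exact Set.subset_union_left
      · exact subset_rfl
    obtain ⟨s, hs, t, ht', hst⟩ := ht y y' hyy
    exact ⟨s, hmono y hs, t, hmono y' ht', hst⟩

theorem conn_union {K : SimpleGraph U} {B : U → Set V} (hB : ∀ x, (G.induce (B x)).Connected)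
    (ht : ∀ x y, K.Adj x y → Touch G (B x) (B y)) {S : Set U} (hS : (K.induce S).Preconnected) :
    (G.induce {v | ∃ x ∈ S, v ∈ B x}).Preconnected := by
  have inner : ∀ (x : U) (hx : x ∈ S) (u v : V) (hu : u ∈ B x) (hv : v ∈ B x),
      (G.induce {v | ∃ x ∈ S, v ∈ B x}).Reachable ⟨u, x, hx, hu⟩ ⟨v, x, hx, hv⟩ := by
    intro x hx u v hu hv
    have h1 := (hB x).preconnected ⟨u, hu⟩ ⟨v, hv⟩
    have hsub : B x ⊆ {v | ∃ x ∈ S, v ∈ B x} := fun w hw => ⟨x, hx, hw⟩
    exact h1.map (SimpleGraph.induceHomOfLE G hsub).toHom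
  have main : ∀ x y : S, (K.induce S).Reachable x y → ∀ (u v : V) (hu : u ∈ B x) (hv : v ∈ B y),
      (G.induce {v | ∃ x ∈ S, v ∈ B x}).Reachable ⟨u, x, x.2, hu⟩ ⟨v, y, y.2, hv⟩ := by
    rintro x y ⟨w⟩
    induction w with
    | nil => exact fun u v hu hv => inner _ (Subtype.prop _) u v hu hv
    | @cons a b c hab _ ih =>
      intro u v hu hv
      obtain ⟨s, hs, t, ht', hst⟩ := ht a b hab
      refine (inner a a.2 u s hu hs).trans (SimpleGraph.Reachable.trans ?_ (ih t v ht' hv))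
      exact SimpleGraph.Adj.reachable (G := G.induce {v | ∃ x ∈ S, v ∈ B x})
        (u := ⟨s, a, a.2, hs⟩) (v := ⟨t, b, b.2, ht'⟩) hst
  rintro ⟨u, x, hx, hu⟩ ⟨v, y, hy, hv⟩
  exact main ⟨x, hx⟩ ⟨y, hy⟩ (hS _ _) u v hu hv

theorem convexity_of_obstruction [Finite V] (hp : 1 ≤ p) (hG : G.Connected) {K : SimpleGraph U}
    {F : U → Set (Finset (Fin p))} (h : Labelled p K F) (hm : IsMinor K G) :
    ∃ 𝒞 : Set (Set V), IsConvexity G 𝒞 ∧ ¬ Radon 𝒞 p := by
  classical
  choose x hx using h.point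
  have hU : Nonempty U := ⟨x ⟨0, hp⟩⟩
  obtain ⟨B, hB, hd, ht, hun⟩ := exists_partition hG hm
  have huniq : ∀ {v : V} {y y' : U}, v ∈ B y → v ∈ B y' → y = y' := by
    intro v y y' h1 h2
    by_contra hne
    exact Set.disjoint_left.1 (hd y y' hne) h1 h2
  obtain ⟨W, hW⟩ : ∃ W : Set (Finset (Fin p)) → Set V,
      ∀ 𝒜, W 𝒜 = {v | ∃ y ∈ {y | 𝒜 ⊆ F y}, v ∈ B y} := ⟨_, fun _ => rfl⟩
  have hWm : ∀ 𝒜 v, v ∈ W 𝒜 ↔ ∃ y, 𝒜 ⊆ F y ∧ v ∈ B y := by
    intro 𝒜 v
    rw [hW]
    rfl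
  refine ⟨Set.range W, ⟨?_, ?_, ?_, ?_⟩, ?_⟩
  · rintro _ ⟨𝒜, rfl⟩
    rw [hW]
    exact conn_union hB ht (h.conn 𝒜)
  · refine ⟨{∅}, Set.eq_empty_iff_forall_notMem.2 fun v hv => ?_⟩
    obtain ⟨y, hy, _⟩ := (hWm _ v).1 hv
    obtain ⟨i, hi, _⟩ := (h.inter y).meet _ (hy rfl) _ (hy rfl)
    exact absurd hi (Finset.notMem_empty i)
  · refine ⟨∅, Set.eq_univ_iff_forall.2 fun v => ?_⟩
    have hv : v ∈ ⋃ y, B y := by
      rw [hun]
      exact Set.mem_univ v
    obtain ⟨y, hy⟩ := Set.mem_iUnion.1 hv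
    exact (hWm _ v).2 ⟨y, Set.empty_subset _, hy⟩
  · rintro _ ⟨𝒜, rfl⟩ _ ⟨ℬ, rfl⟩
    refine ⟨𝒜 ∪ ℬ, ?_⟩
    ext v
    rw [Set.mem_inter_iff, hWm, hWm, hWm]
    constructor
    · rintro ⟨y, hy, hv⟩
      exact ⟨⟨y, Set.subset_union_left.trans hy, hv⟩, ⟨y, Set.subset_union_right.trans hy, hv⟩⟩
    · rintro ⟨⟨y, hy, hv⟩, ⟨y', hy', hv'⟩⟩
      have := huniq hv hv'
      subst this
      exact ⟨y, Set.union_subset hy hy', hv⟩
  · intro hR
    have hxinj : ∀ i j, x i = x j → i = j := by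
      intro i j hij
      have h1 : ({i} : Finset (Fin p)) ∈ F (x j) := by
        rw [← hij, hx]
        exact Finset.mem_singleton_self i
      rw [hx] at h1
      exact (Finset.mem_singleton.1 h1).symm
    obtain ⟨b, hb⟩ : ∃ b : Fin p → V, b = fun i => ((hB (x i)).nonempty.some : V) := ⟨_, rfl⟩
    have hbm : ∀ i, b i ∈ B (x i) := fun i => by
      rw [hb]
      exact (hB (x i)).nonempty.some.2
    have hbinj : Function.Injective b := by
      intro i j hij
      exact hxinj i j (huniq (hbm i) (hij ▸ hbm j))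
    obtain ⟨S, T, hS, hT, hST, v, hv1, hv2⟩ := hR (Finset.univ.image b) (by
      rw [Finset.card_image_of_injective _ hbinj, Finset.card_univ, Fintype.card_fin])
    have hkey : ∀ S : Set V, S ⊆ (↑(Finset.univ.image b) : Set V) → ∀ v ∈ hull (Set.range W) S,
        ∃ y, (Finset.univ.filter fun i => b i ∈ S) ∈ F y ∧ v ∈ B y := by
      intro S hS v hv
      unfold hull at hv
      rw [Set.mem_sInter] at hv
      have h1 := hv (W {Finset.univ.filter fun i => b i ∈ S}) ⟨⟨_, rfl⟩, fun u hu => ?_⟩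
      · obtain ⟨y, hy, hvy⟩ := (hWm _ v).1 h1
        exact ⟨y, hy rfl, hvy⟩
      · have h2 := hS hu
        rw [Finset.mem_coe, Finset.mem_image] at h2
        obtain ⟨i, _, rfl⟩ := h2
        refine (hWm _ _).2 ⟨x i, ?_, hbm i⟩
        rw [Set.singleton_subset_iff, hx]
        have h3 : i ∈ Finset.univ.filter fun i => b i ∈ S :=
          Finset.mem_filter.2 ⟨Finset.mem_univ _, hu⟩
        exact h3
    obtain ⟨y, hy, hvy⟩ := hkey S hS v hv1
    obtain ⟨y', hy', hvy'⟩ := hkey T hT v hv2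
    have := huniq hvy hvy'
    subst this
    obtain ⟨i, hi, hi'⟩ := (h.inter y).meet _ hy _ hy'
    exact Set.disjoint_left.1 hST (Finset.mem_filter.1 hi).2 (Finset.mem_filter.1 hi').2

theorem obstruction_card {n : ℕ} {K : SimpleGraph (Fin n)} {F : Fin n → Set (Finset (Fin p))}
    (h : Obstruction p K F) : n ≤ 2 ^ 2 ^ p := by
  classical
  have hinj : Function.Injective F := fun x y hxy => h.anti x y hxy.le
  have h1 := Fintype.card_le_of_injective F hinj
  rw [Fintype.card_fin, Fintype.card_set, Fintype.card_finset, Fintype.card_fin] at h1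
  exact h1

theorem main [Finite V] (hp : 1 ≤ p) (hG : G.Connected) :
    (∃ 𝒞 : Set (Set V), IsConvexity G 𝒞 ∧ ¬ Radon 𝒞 p) ↔
      ∃ n ≤ 2 ^ 2 ^ p, ∃ (K : SimpleGraph (Fin n)) (F : Fin n → Set (Finset (Fin p))),
        Obstruction p K F ∧ IsMinor K G := by
  constructor
  · rintro ⟨𝒞, h𝒞, hR⟩
    obtain ⟨F, hF⟩ := labelled_of_convexity h𝒞 hR
    obtain ⟨n, K, F', hO, hm⟩ := exists_obstruction_minor hF (minor_refl G)
    exact ⟨n, obstruction_card hO, K, F', hO, hm⟩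
  · rintro ⟨n, _, K, F, hO, hm⟩
    exact convexity_of_obstruction hp hG hO.labelled hm

end Pool.Agent.OB31
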