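import Pool.Agent.OB31.Defs

/-!
# OB31/Core (MP_93e89b_co): a failure of the Radon property gives an obstruction as a minor

`labelled_of_convexity`: the points `a i` refute `(R_p)`, the label of `x` consists of the `S` with `x` in the hull of `a '' S`.
`contr_labelled`, `contr_minor`: an edge `x z` with `F x ⊆ F z` is contracted. `exists_obstruction_minor`: induction on the number of
vertices.
-/

set_option autoImplicit false

namespace Pool.Agent.OB31

open Pool.Agent.HR54

variable {V U : Type} {G : SimpleGraph V} {p : ℕ}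

theorem sInter_mem [Finite V] {𝒞 : Set (Set V)} (h : IsConvexity G 𝒞) (𝒟 : Set (Set V))
    (hD : ∀ K ∈ 𝒟, K ∈ 𝒞) : ⋂₀ 𝒟 ∈ 𝒞 := by
  classical
  have key : ∀ t : Finset (Set V), (∀ K ∈ t, K ∈ 𝒞) → ⋂₀ (↑t : Set (Set V)) ∈ 𝒞 := by
    intro t
    induction t using Finset.induction_on with
    | empty =>
      intro _
      rw [Finset.coe_empty, Set.sInter_empty]
      exact h.univ
    | insert K t _ ih =>
      intro ht
      rw [Finset.coe_insert, Set.sInter_insert]
      exact h.inter _ (ht K (Finset.mem_insert_self _ _)) _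
        (ih fun L hL => ht L (Finset.mem_insert_of_mem hL))
  have h1 := key (Set.toFinite 𝒟).toFinset fun K hK => hD K ((Set.Finite.mem_toFinset _).1 hK)
  rwa [Set.Finite.coe_toFinset] at h1

theorem labelled_of_convexity [Finite V] {𝒞 : Set (Set V)} (h : IsConvexity G 𝒞)
    (hR : ¬ Radon 𝒞 p) : ∃ F : V → Set (Finset (Fin p)), Labelled p G F := by
  classical
  unfold Radon at hR
  push Not at hR
  obtain ⟨A, hA, hno⟩ := hR
  let e : Fin p ≃ A := (Fin.castOrderIso hA.symm).toEquiv.trans A.equivFin.symm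
  let a : Fin p → V := fun i => (e i : V)
  have ha : ∀ i, a i ∈ (↑A : Set V) := fun i => (e i).2
  have hinj : Function.Injective a := fun i j hij => e.injective (Subtype.ext hij)
  have hsub : ∀ S : Set (Fin p), a '' S ⊆ (↑A : Set V) := by
    rintro S _ ⟨i, -, rfl⟩
    exact ha i
  let F : V → Set (Finset (Fin p)) := fun x => {S | x ∈ hull 𝒞 (a '' (↑S : Set (Fin p)))}
  have hF : ∀ x S, S ∈ F x ↔ ∀ K ∈ 𝒞, a '' (↑S : Set (Fin p)) ⊆ K → x ∈ K := by
    intro x S
    change x ∈ ⋂₀ {K : Set V | K ∈ 𝒞 ∧ a '' (↑S : Set (Fin p)) ⊆ K} ↔ _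
    rw [Set.mem_sInter]
    exact ⟨fun h1 K hK hs => h1 K ⟨hK, hs⟩, fun h1 K hK => h1 K hK.1 hK.2⟩
  have hin : ∀ x, InterUp (F x) := by
    intro x
    refine ⟨fun S hS T hST => (hF x T).2 fun K hK hs => (hF x S).1 hS K hK
      ((Set.image_mono (Finset.coe_subset.2 hST)).trans hs), fun S hS T hT => ?_⟩
    by_contra hc
    have hd : Disjoint (a '' (↑S : Set (Fin p))) (a '' (↑T : Set (Fin p))) := by
      rw [Set.disjoint_image_iff hinj, Set.disjoint_left]
      exact fun i hi hi' => hc ⟨i, hi, hi'⟩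
    have h1 := hno _ _ (hsub _) (hsub _) hd
    have h2 : x ∈ hull 𝒞 (a '' (↑S : Set (Fin p))) ∩ hull 𝒞 (a '' (↑T : Set (Fin p))) := ⟨hS, hT⟩
    rw [h1] at h2
    exact h2
  refine ⟨F, hin, fun i => ⟨a i, ?_⟩, fun 𝒜 => ?_⟩
  · have hi : ({i} : Finset (Fin p)) ∈ F (a i) := (hF _ _).2 fun K _ hs =>
      hs ⟨i, Finset.mem_coe.2 (Finset.mem_singleton_self i), rfl⟩
    ext S
    constructor
    · intro hS
      obtain ⟨j, hj, hj'⟩ := (hin (a i)).meet _ hi _ hS
      rw [Finset.mem_singleton] at hj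
      exact hj ▸ hj'
    · intro hS
      exact (hF _ _).2 fun K _ hs => hs ⟨i, hS, rfl⟩
  · have h1 : {x | 𝒜 ⊆ F x} =
        ⋂₀ {K | K ∈ 𝒞 ∧ ∃ S ∈ 𝒜, a '' (↑S : Set (Fin p)) ⊆ K} := by
      ext x
      rw [Set.mem_sInter]
      constructor
      · rintro hx K ⟨hK, S, hS, hs⟩
        exact (hF x S).1 (hx hS) K hK hs
      · intro hx S hS
        exact (hF x S).2 fun K hK hs => hx K ⟨hK, S, hS, hs⟩
    rw [h1]
    exact h.conn _ (sInter_mem h _ fun K hK => hK.1)

theorem minor_refl (G : SimpleGraph V) : IsMinor G G := by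
  refine ⟨fun x => {x}, fun x => ?_, fun x y hxy => Set.disjoint_singleton.2 hxy,
    fun x y h => ⟨x, rfl, y, rfl, h⟩⟩
  have h1 : Nonempty ({x} : Set V) := ⟨⟨x, rfl⟩⟩
  have h2 : Subsingleton ({x} : Set V) := ⟨fun a b => Subtype.ext (a.2.trans b.2.symm)⟩
  exact SimpleGraph.Connected.mk fun a b => by
    rw [Subsingleton.elim a b]

/-- The graph `K` with `x` contracted into `z`. -/
def contr (K : SimpleGraph U) (x z : U) : SimpleGraph {u : U // u ≠ x} where
  Adj u v := u ≠ v ∧ (K.Adj u v ∨ ((u : U) = z ∧ K.Adj x v) ∨ ((v : U) = z ∧ K.Adj x u))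
  symm := ⟨fun u v h => ⟨h.1.symm, by
    rcases h.2 with h' | h' | h'
    · exact Or.inl h'.symm
    · exact Or.inr (Or.inr h')
    · exact Or.inr (Or.inl h')⟩⟩
  loopless := ⟨fun u h => h.1 rfl⟩

theorem contr_minor {K : SimpleGraph U} {x z : U} (hxz : K.Adj x z) (hm : IsMinor K G) :
    IsMinor (contr K x z) G := by
  classical
  obtain ⟨B, hB, hd, ht⟩ := hm
  have htx : Touch G (B x) (B z) := ht x z hxz
  have hBz : (G.induce (B x ∪ B z)).Connected := by
    obtain ⟨s, hs, t, ht', hst⟩ := htx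
    exact SimpleGraph.connected_induce_union (hB x).preconnected (hB z).preconnected hs ht' hst
  refine ⟨fun u => if (u : U) = z then B x ∪ B z else B u, fun u => ?_, fun u v huv => ?_,
    fun u v h => ?_⟩
  · change (G.induce (if (u : U) = z then B x ∪ B z else B u)).Connected
    by_cases hu : (u : U) = z
    · have e1 : (if (u : U) = z then B x ∪ B z else B u) = B x ∪ B z := if_pos hu
      rw [e1]
      exact hBz
    · have e1 : (if (u : U) = z then B x ∪ B z else B u) = B u := if_neg hu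
      rw [e1]
      exact hB u
  · dsimp only
    have huv' : (u : U) ≠ v := fun h => huv (Subtype.ext h)
    split_ifs with hu hv hv
    · exact absurd (hu.trans hv.symm) huv'
    · rw [Set.disjoint_union_left]
      exact ⟨hd _ _ v.2.symm, hd _ _ fun h => hv h.symm⟩
    · rw [Set.disjoint_union_right]
      exact ⟨hd _ _ u.2, hd _ _ fun h => hu h⟩
    · exact hd _ _ huv'
  · have hmono : ∀ w : {u : U // u ≠ x}, B w ⊆ if (w : U) = z then B x ∪ B z else B w := by
      intro w
      split_ifs with hw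
      · rw [hw]
        exact Set.subset_union_right
      · exact subset_rfl
    have hz : ∀ w : {u : U // u ≠ x}, (w : U) = z →
        B x ⊆ if (w : U) = z then B x ∪ B z else B w := by
      intro w hw
      rw [if_pos hw]
      exact Set.subset_union_left
    have tm : ∀ {S S' T T' : Set V}, Touch G S T → S ⊆ S' → T ⊆ T' → Touch G S' T' := by
      rintro S S' T T' ⟨s, hs, t, ht', hst⟩ h1 h2
      exact ⟨s, h1 hs, t, h2 ht', hst⟩
    rcases h.2 with h' | ⟨h1, h'⟩ | ⟨h1, h'⟩
    · exact tm (ht _ _ h') (hmono u) (hmono v)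
    · exact tm (ht _ _ h') (hz u h1) (hmono v)
    · exact tm (ht _ _ h'.symm) (hmono u) (hz v h1)

theorem contr_labelled {K : SimpleGraph U} {F : U → Set (Finset (Fin p))} (h : Labelled p K F)
    {x z : U} (hxz : K.Adj x z) (hF : F x ⊆ F z) :
    Labelled p (contr K x z) (fun u => F u) := by
  classical
  refine ⟨fun u => h.inter u, fun i => ?_, fun 𝒜 => ?_⟩
  · obtain ⟨u, hu⟩ := h.point i
    by_cases hux : u = x
    · refine ⟨⟨z, hxz.ne.symm⟩, ?_⟩
      have hi : ({i} : Finset (Fin p)) ∈ F z := hF (by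
        rw [← hux, hu]
        exact Finset.mem_singleton_self i)
      refine Set.Subset.antisymm ?_ ?_
      · intro S hS
        obtain ⟨j, hj, hj'⟩ := (h.inter z).meet _ hi _ hS
        rw [Finset.mem_singleton] at hj
        exact hj ▸ hj'
      · rw [← hu, hux]
        exact hF
    · exact ⟨⟨u, hux⟩, hu⟩
  · obtain ⟨r, hr⟩ : ∃ r : U → {u : U // u ≠ x}, ∀ u, (r u : U) = if u = x then z else u := by
      refine ⟨fun u => if hu : u = x then ⟨z, hxz.ne.symm⟩ else ⟨u, hu⟩, fun u => ?_⟩
      by_cases hu : u = x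
      · simp only [dif_pos hu, if_pos hu]
      · simp only [dif_neg hu, if_neg hu]
    have hrS : ∀ u, 𝒜 ⊆ F u → 𝒜 ⊆ F (r u) := by
      intro u hu
      rw [hr]
      split_ifs with hux
      · exact (hux ▸ hu).trans hF
      · exact hu
    have hradj : ∀ u v, K.Adj u v → r u = r v ∨ (contr K x z).Adj (r u) (r v) := by
      intro u v huv
      by_cases he : r u = r v
      · exact Or.inl he
      · refine Or.inr ⟨he, ?_⟩
        have e1 := hr u
        have e2 := hr v
        by_cases hu : u = x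
        · rw [if_pos hu] at e1
          have hv : v ≠ x := fun hv => huv.ne (hu.trans hv.symm)
          rw [if_neg hv] at e2
          rw [e1, e2]
          exact Or.inr (Or.inl ⟨rfl, hu ▸ huv⟩)
        · rw [if_neg hu] at e1
          by_cases hv : v = x
          · rw [if_pos hv] at e2
            rw [e1, e2]
            exact Or.inr (Or.inr ⟨rfl, hv ▸ huv.symm⟩)
          · rw [if_neg hv] at e2
            rw [e1, e2]
            exact Or.inl huv
    have hreach : ∀ u v : {u : U | 𝒜 ⊆ F u}, (K.induce {u | 𝒜 ⊆ F u}).Reachable u v →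
        ((contr K x z).induce {u : {u : U // u ≠ x} | 𝒜 ⊆ F u}).Reachable ⟨r u, hrS u u.2⟩ ⟨r v, hrS v v.2⟩ := by
      rintro u v ⟨w⟩
      induction w with
      | nil => exact SimpleGraph.Reachable.refl _
      | @cons a b c hab _ ih =>
        rcases hradj a b hab with he | he
        · have : (⟨r a, hrS a a.2⟩ : {u : {u : U // u ≠ x} | 𝒜 ⊆ F u}) = ⟨r b, hrS b b.2⟩ :=
            Subtype.ext he
          rw [this]
          exact ih
        · exact (SimpleGraph.Adj.reachable (G := (contr K x z).induce {u : {u : U // u ≠ x} | 𝒜 ⊆ F u})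
            (u := ⟨r a, hrS a a.2⟩) (v := ⟨r b, hrS b b.2⟩) he).trans ih
    have hrid : ∀ u : {u : U // u ≠ x}, r u = u := by
      intro u
      apply Subtype.ext
      rw [hr, if_neg u.2]
    rintro ⟨u, hu⟩ ⟨v, hv⟩
    have h1 := hreach ⟨u, hu⟩ ⟨v, hv⟩ (h.conn 𝒜 _ _)
    simp only [hrid] at h1
    exact h1

theorem exists_obstruction_minor [Finite U] {K : SimpleGraph U} {F : U → Set (Finset (Fin p))}
    (h : Labelled p K F) (hm : IsMinor K G) :
    ∃ (n : ℕ) (K' : SimpleGraph (Fin n)) (F' : Fin n → Set (Finset (Fin p))),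
      Obstruction p K' F' ∧ IsMinor K' G := by
  classical
  obtain ⟨n, hn⟩ : ∃ n, n = Nat.card U := ⟨_, rfl⟩
  induction n using Nat.strong_induction_on generalizing U with
  | _ n ih =>
    by_cases hanti : ∀ x y, F x ⊆ F y → x = y
    · obtain ⟨e⟩ : Nonempty (U ≃ Fin (Nat.card U)) := ⟨Finite.equivFin U⟩
      refine ⟨Nat.card U, K.comap e.symm, fun i => F (e.symm i), ⟨⟨fun i => h.inter _, fun i => ?_,
        fun 𝒜 => ?_⟩, fun i j hij => e.symm.injective (hanti _ _ hij)⟩, ?_⟩
      · obtain ⟨x, hx⟩ := h.point i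
        exact ⟨e x, by rw [Equiv.symm_apply_apply]; exact hx⟩
      · rintro ⟨i, hi⟩ ⟨j, hj⟩
        have h1 : ∀ u v : {u : U | 𝒜 ⊆ F u}, (K.induce {u | 𝒜 ⊆ F u}).Reachable u v →
            ((K.comap e.symm).induce {i | 𝒜 ⊆ F (e.symm i)}).Reachable
              ⟨e u, by change 𝒜 ⊆ F (e.symm (e u)); rw [Equiv.symm_apply_apply]; exact u.2⟩
              ⟨e v, by change 𝒜 ⊆ F (e.symm (e v)); rw [Equiv.symm_apply_apply]; exact v.2⟩ := by
          rintro u v ⟨w⟩
          induction w with
          | nil => exact SimpleGraph.Reachable.refl _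
          | @cons a b c hab _ ih' =>
            refine (SimpleGraph.Adj.reachable ?_).trans ih'
            change K.Adj (e.symm (e a)) (e.symm (e b))
            rw [Equiv.symm_apply_apply, Equiv.symm_apply_apply]
            exact hab
        have h2 := h1 ⟨e.symm i, hi⟩ ⟨e.symm j, hj⟩ (h.conn 𝒜 _ _)
        simp only [Equiv.apply_symm_apply] at h2
        exact h2
      · obtain ⟨B, hB, hd, ht⟩ := hm
        exact ⟨fun i => B (e.symm i), fun i => hB _, fun i j hij => hd _ _ fun h' =>
          hij (e.symm.injective h'), fun i j hij => ht _ _ hij⟩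
    · push Not at hanti
      obtain ⟨x, y, hxy, hne⟩ := hanti
      have hconn := h.conn (F x) ⟨x, Set.Subset.refl (F x)⟩ ⟨y, hxy⟩
      obtain ⟨z, hz1, hz2⟩ : ∃ z, K.Adj x z ∧ F x ⊆ F z := by
        obtain ⟨w⟩ := hconn
        cases w with
        | nil => exact absurd rfl hne
        | @cons _ b _ hab _ => exact ⟨b, hab, b.2⟩
      have hcard : Nat.card {u : U // u ≠ x} < n := by
        rw [hn]
        haveI := Fintype.ofFinite U
        rw [Nat.card_eq_fintype_card, Nat.card_eq_fintype_card]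
        exact Fintype.card_subtype_lt (x := x) (by simp)
      exact ih _ hcard (contr_labelled h hz1 hz2) (contr_minor hz1 hm) rfl

end Pool.Agent.OB31
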