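import Pool.Agent.HR54.Defs

/-!
# OB31/Defs (MP_93e89b_co): obstructions to the Radon property of order `p`

Paper proof: note 3655 of the team database.
-/

set_option autoImplicit false

namespace Pool.Agent.OB31

open Pool.Agent.HR54

/-- Intersecting up-sets: families of subsets of `Fin p` which are closed under supersets and any two
members of which (also equal ones) have a common element. -/
structure InterUp {p : ℕ} (F : Set (Finset (Fin p))) : Prop where
  up : ∀ A ∈ F, ∀ B, A ⊆ B → B ∈ F
  meet : ∀ A ∈ F, ∀ B ∈ F, ∃ i, i ∈ A ∧ i ∈ B

/-- The principal family of `i`: all sets containing `i`. -/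
def princ {p : ℕ} (i : Fin p) : Set (Finset (Fin p)) := {A | i ∈ A}

/-- The vertices `x` of `K` are labelled by intersecting up-sets `F x` of subsets of `Fin p`, every
principal family is a label, and for every family `𝒜` of subsets of `Fin p` the vertices `x` with
`𝒜 ⊆ F x` induce a connected (or empty) subgraph. -/
structure Labelled (p : ℕ) {U : Type} (K : SimpleGraph U) (F : U → Set (Finset (Fin p))) :
    Prop where
  inter : ∀ x, InterUp (F x)
  point : ∀ i, ∃ x, F x = princ i
  conn : ∀ 𝒜 : Set (Finset (Fin p)), (K.induce {x | 𝒜 ⊆ F x}).Preconnected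

/-- An obstruction of order `p`: a graph labelled as above such that the labels of different vertices
are incomparable. -/
structure Obstruction (p : ℕ) {U : Type} (K : SimpleGraph U) (F : U → Set (Finset (Fin p))) :
    Prop where
  labelled : Labelled p K F
  anti : ∀ x y, F x ⊆ F y → x = y

/-- `H` is a minor of `G`: there are disjoint non-empty connected sets `B x` of vertices of `G`, `x` a
vertex of `H`, and an edge of `G` joins `B x` and `B y` if `x y` is an edge of `H`. -/
def IsMinor {U V : Type} (H : SimpleGraph U) (G : SimpleGraph V) : Prop :=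
  ∃ B : U → Set V, (∀ x, (G.induce (B x)).Connected) ∧
    (∀ x y, x ≠ y → Disjoint (B x) (B y)) ∧ ∀ x y, H.Adj x y → Touch G (B x) (B y)

end Pool.Agent.OB31
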